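import Mathlib
import Pool.Agent.H386R2.Artin.LocalCount
import Pool.Agent.H730R2.AB.LocalSq

set_option autoImplicit false

/-! # Local counts for the condition that the index divides `k` -/

namespace Pool.Agent.H981R3.LN

open Finset
open Pool.Agent.H386R2.Artin (Good hL power_residue LC_pos)
open Pool.Agent.H730R2.AB (one_sub_sum_le)

/-- `ℓ ^ (ν_ℓ(k) + 1)` -/
def ql (k l : ℕ) : ℕ := l ^ (k.factorization l + 1)

/-- the primes `ℓ ∣ n` with `ql k ℓ ∣ n` -/
def Sk (k n : ℕ) : Finset ℕ := n.primeFactors.filter (fun l => ql k l ∣ n)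

/-- the local density -/
noncomputable def gk (k n : ℕ) : ℝ := ∏ l ∈ Sk k n, (1 - 1 / (ql k l : ℝ))

/-- the local density with the primes up to `L` only -/
noncomputable def gkL (k L n : ℕ) : ℝ := ∏ l ∈ (Sk k n).filter (fun l => l ≤ L), (1 - 1 / (ql k l : ℝ))

lemma mem_Sk {k n l : ℕ} (hn : n ≠ 0) : l ∈ Sk k n ↔ l.Prime ∧ ql k l ∣ n := by
  unfold Sk
  rw [mem_filter, Nat.mem_primeFactors]
  constructor
  · rintro ⟨⟨h1, -, -⟩, h2⟩
    exact ⟨h1, h2⟩
  · rintro ⟨h1, h2⟩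
    refine ⟨⟨h1, ?_, hn⟩, h2⟩
    exact (dvd_pow_self l (Nat.succ_ne_zero _)).trans h2

lemma ql_ge {k l : ℕ} (hl : 1 ≤ l) : l ≤ ql k l := by
  unfold ql
  calc l = l ^ 1 := (pow_one l).symm
    _ ≤ l ^ (k.factorization l + 1) := Nat.pow_le_pow_right hl (by omega)

lemma ql_coprime {k l l' : ℕ} (hl : l.Prime) (hl' : l'.Prime) (h : l ≠ l') :
    Nat.Coprime (ql k l) (ql k l') :=
  Nat.Coprime.pow _ _ ((Nat.coprime_primes hl hl').2 h)

lemma prod_dvd_iff (k n : ℕ) (K : Finset ℕ) (hK : ∀ l ∈ K, l.Prime) :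
    ∏ l ∈ K, ql k l ∣ n ↔ ∀ l ∈ K, ql k l ∣ n := by
  constructor
  · intro h l hl
    exact (Finset.dvd_prod_of_mem _ hl).trans h
  · intro h
    induction K using Finset.induction_on with
    | empty => simp
    | insert l K hl ih =>
      rw [Finset.prod_insert hl]
      refine Nat.Coprime.mul_dvd_of_dvd_of_dvd ?_ (h l (mem_insert_self _ _))
        (ih (fun x hx => hK x (mem_insert_of_mem hx)) (fun x hx => h x (mem_insert_of_mem hx)))
      apply Nat.Coprime.prod_right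
      intro x hx
      refine ql_coprime (hK l (mem_insert_self _ _)) (hK x (mem_insert_of_mem hx)) ?_
      rintro rfl
      exact hl hx

lemma dvd_div_comm {N m q : ℕ} (_hN : 0 < N) (hm : m ∣ N) (hq : q ∣ N) :
    m ∣ N / q ↔ q ∣ N / m := by
  rw [Nat.dvd_div_iff_mul_dvd hq, Nat.dvd_div_iff_mul_dvd hm, mul_comm]

section
variable {p : ℕ} [hp : Fact p.Prime]

lemma Sk_prime {k l : ℕ} (hl : l ∈ Sk k (p - 1)) : l.Prime :=
  ((mem_Sk (LC_pos (p := p)).ne').1 hl).1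

lemma Sk_dvd {k l : ℕ} (hl : l ∈ Sk k (p - 1)) : ql k l ∣ p - 1 :=
  ((mem_Sk (LC_pos (p := p)).ne').1 hl).2

lemma pow_iff_dvd {a : ZMod p} (ha : a ≠ 0) {q : ℕ} (hq : q ∣ p - 1) :
    a ^ ((p - 1) / q) = 1 ↔ q ∣ (p - 1) / orderOf a := by
  have hm : orderOf a ∣ p - 1 := orderOf_dvd_of_pow_eq_one (ZMod.pow_card_sub_one_eq_one ha)
  rw [← orderOf_dvd_iff_pow_eq_one, dvd_div_comm LC_pos hm hq]

lemma pow_prod_iff {k : ℕ} {a : ZMod p} (ha : a ≠ 0) (K : Finset ℕ) (hK : K ⊆ Sk k (p - 1)) :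
    (∀ l ∈ K, a ^ ((p - 1) / ql k l) = 1) ↔ a ^ ((p - 1) / ∏ l ∈ K, ql k l) = 1 := by
  have hd : ∏ l ∈ K, ql k l ∣ p - 1 :=
    (prod_dvd_iff k _ K fun l hl => Sk_prime (hK hl)).2 fun l hl => Sk_dvd (hK hl)
  rw [pow_iff_dvd ha hd, prod_dvd_iff k _ K fun l hl => Sk_prime (hK hl)]
  exact forall₂_congr fun l hl => pow_iff_dvd ha (Sk_dvd (hK hl))

/-- the index divides `k` -/
lemma index_iff {k : ℕ} (hk : k ≠ 0) (a : ZMod p) :
    (p - 1) / orderOf a ∣ k ↔ a ≠ 0 ∧ ∀ l ∈ Sk k (p - 1), a ^ ((p - 1) / ql k l) ≠ 1 := by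
  have hp1 : 0 < p - 1 := LC_pos
  by_cases ha : a = 0
  · subst ha
    have h0 : (p - 1) / orderOf (0 : ZMod p) = 0 := by
      rcases Nat.eq_zero_or_pos (orderOf (0 : ZMod p)) with h | h
      · rw [h, Nat.div_zero]
      · exfalso
        have h1 := pow_orderOf_eq_one (0 : ZMod p)
        rw [zero_pow h.ne'] at h1
        exact zero_ne_one h1
    rw [h0, Nat.zero_dvd]
    simp [hk]
  · have hm : orderOf a ∣ p - 1 := orderOf_dvd_of_pow_eq_one (ZMod.pow_card_sub_one_eq_one ha)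
    have hi0 : (p - 1) / orderOf a ≠ 0 := by
      have h1 := Nat.le_of_dvd hp1 hm
      have h2 : 0 < orderOf a := Nat.pos_of_dvd_of_pos hm hp1
      exact (Nat.div_pos h1 h2).ne'
    constructor
    · intro h
      refine ⟨ha, fun l hl h1 => ?_⟩
      rw [pow_iff_dvd ha (Sk_dvd hl)] at h1
      have h2 := h1.trans h
      unfold ql at h2
      rw [(Sk_prime hl).pow_dvd_iff_le_factorization hk] at h2
      omega
    · rintro ⟨-, h⟩
      rw [← Nat.factorization_le_iff_dvd hi0 hk]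
      intro l
      by_contra hcon
      push Not at hcon
      by_cases hl : l.Prime
      · have h1 : ql k l ∣ (p - 1) / orderOf a := by
          unfold ql
          rw [hl.pow_dvd_iff_le_factorization hi0]
          omega
        have h2 : ql k l ∣ p - 1 := h1.trans (Nat.div_dvd_of_dvd hm)
        exact h l ((mem_Sk hp1.ne').2 ⟨hl, h2⟩) ((pow_iff_dvd ha h2).2 h1)
      · have h0 := Nat.factorization_eq_zero_of_not_prime ((p - 1) / orderOf a) hl
        omega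

lemma incl_excl {k : ℕ} (a : ZMod p) (ha : a ≠ 0) (P : Finset ℕ) (hP : P ⊆ Sk k (p - 1)) :
    (if ∀ l ∈ P, a ^ ((p - 1) / ql k l) ≠ 1 then (1 : ℝ) else 0)
      = ∑ K ∈ P.powerset, (-1 : ℝ) ^ #K *
        (if a ^ ((p - 1) / ∏ l ∈ K, ql k l) = 1 then 1 else 0) := by
  have h1 : (if ∀ l ∈ P, a ^ ((p - 1) / ql k l) ≠ 1 then (1 : ℝ) else 0)
      = ∏ l ∈ P, (-(if a ^ ((p - 1) / ql k l) = 1 then (1 : ℝ) else 0) + 1) := by
    by_cases h : ∀ l ∈ P, a ^ ((p - 1) / ql k l) ≠ 1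
    · rw [if_pos h]
      symm
      refine Finset.prod_eq_one fun l hl => ?_
      rw [if_neg (h l hl)]
      norm_num
    · rw [if_neg h]
      push Not at h
      obtain ⟨l, hl, hl1⟩ := h
      symm
      refine Finset.prod_eq_zero hl ?_
      rw [if_pos hl1]
      norm_num
  rw [h1, Finset.prod_add]
  refine Finset.sum_congr rfl fun K hK => ?_
  rw [Finset.prod_const_one, mul_one, Finset.prod_neg]
  congr 1
  have h2 := pow_prod_iff ha K ((Finset.mem_powerset.mp hK).trans hP)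
  by_cases h : ∀ l ∈ K, a ^ ((p - 1) / ql k l) = 1
  · rw [if_pos (h2.mp h)]
    refine Finset.prod_eq_one fun l hl => ?_
    rw [if_pos (h l hl)]
  · rw [if_neg (fun h' => h (h2.mpr h'))]
    push Not at h
    obtain ⟨l, hl, hl1⟩ := h
    exact Finset.prod_eq_zero hl (if_neg hl1)

lemma prod_expand (k : ℕ) (P : Finset ℕ) : ∏ l ∈ P, (1 - 1 / (ql k l : ℝ)) = ∑ K ∈ P.powerset,
    (-1 : ℝ) ^ #K * (1 / ((∏ l ∈ K, ql k l : ℕ) : ℝ)) := by
  have : ∀ l ∈ P, (1 - 1 / (ql k l : ℝ)) = -(1 / (ql k l : ℝ)) + 1 := by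
    intro l _; ring
  rw [Finset.prod_congr rfl this, Finset.prod_add]
  refine Finset.sum_congr rfl fun K _ => ?_
  rw [Finset.prod_const_one, mul_one, Finset.prod_neg]
  congr 1
  push_cast
  rw [Finset.prod_div_distrib, Finset.prod_const_one]

lemma one_sub_sum_le' (k : ℕ) (R : Finset ℕ) (hR : ∀ l ∈ R, 1 ≤ l) :
    1 - ∑ l ∈ R, 1 / (l : ℝ) ≤ ∏ l ∈ R, (1 - 1 / (ql k l : ℝ)) ∧
    0 ≤ ∏ l ∈ R, (1 - 1 / (ql k l : ℝ)) ∧ ∏ l ∈ R, (1 - 1 / (ql k l : ℝ)) ≤ 1 := by
  induction R using Finset.induction_on with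
  | empty => simp
  | insert l R hl ih =>
    obtain ⟨h1, h2, h3⟩ := ih (fun x hx => hR x (mem_insert_of_mem hx))
    have hl1 : 1 ≤ l := hR l (mem_insert_self _ _)
    have hql : (l : ℝ) ≤ ql k l := by exact_mod_cast ql_ge hl1
    have hl1' : (1 : ℝ) ≤ l := by exact_mod_cast hl1
    have hl2 : 1 / (ql k l : ℝ) ≤ 1 / (l : ℝ) := one_div_le_one_div_of_le (by linarith) hql
    have hl3 : 0 < 1 / (ql k l : ℝ) := by
      have : (0 : ℝ) < ql k l := by linarith
      positivity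
    have hl4 : 1 / (l : ℝ) ≤ 1 := by rw [div_le_one (by linarith)]; exact hl1'
    rw [sum_insert hl, prod_insert hl]
    refine ⟨?_, ?_, ?_⟩
    · nlinarith
    · exact mul_nonneg (by linarith) h2
    · nlinarith

lemma gk_nonneg (k : ℕ) : 0 ≤ gk k (p - 1) :=
  (one_sub_sum_le' k _ fun _ hl => (Sk_prime (p := p) hl).one_le).2.1

lemma gk_le_one (k : ℕ) : gk k (p - 1) ≤ 1 :=
  (one_sub_sum_le' k _ fun _ hl => (Sk_prime (p := p) hl).one_le).2.2

lemma gkL_nonneg (k L : ℕ) : 0 ≤ gkL k L (p - 1) :=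
  (one_sub_sum_le' k _ fun _ hl => (Sk_prime (p := p) (mem_filter.1 hl).1).one_le).2.1

lemma gkL_le_one (k L : ℕ) : gkL k L (p - 1) ≤ 1 :=
  (one_sub_sum_le' k _ fun _ hl => (Sk_prime (p := p) (mem_filter.1 hl).1).one_le).2.2

lemma gkL_gk (k L : ℕ) : 0 ≤ gkL k L (p - 1) - gk k (p - 1) ∧
    gkL k L (p - 1) - gk k (p - 1) ≤ hL L (p - 1) := by
  set R := (Sk k (p - 1)).filter (fun l => L < l) with hR
  have hR1 : ∀ l ∈ R, 1 ≤ l := fun l hl => (Sk_prime (p := p) (mem_filter.1 hl).1).one_le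
  obtain ⟨h1, h2, h3⟩ := one_sub_sum_le' k R hR1
  have hg0 := gkL_nonneg (p := p) k L
  have hg1 := gkL_le_one (p := p) k L
  have hsplit : gk k (p - 1) = gkL k L (p - 1) * ∏ l ∈ R, (1 - 1 / (ql k l : ℝ)) := by
    unfold gk gkL
    rw [← Finset.prod_filter_mul_prod_filter_not (Sk k (p - 1)) (fun l => l ≤ L)]
    congr 1
    refine Finset.prod_congr ?_ fun _ _ => rfl
    ext l
    simp only [hR, mem_filter, not_le]
  have hh : ∑ l ∈ R, 1 / (l : ℝ) ≤ hL L (p - 1) := by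
    unfold hL
    refine Finset.sum_le_sum_of_subset_of_nonneg ?_ fun _ _ _ => by positivity
    intro l hl
    rw [hR, mem_filter] at hl
    rw [mem_filter]
    exact ⟨(mem_filter.1 hl.1).1, hl.2⟩
  rw [hsplit]
  constructor
  · nlinarith
  · have hh0 : 0 ≤ hL L (p - 1) := Finset.sum_nonneg fun l _ => by positivity
    nlinarith

open Classical in
/-- number of elements of `E` whose multiples by `m` have an index dividing `k` -/
theorem index_count (E : Finset ℕ) (M : ℝ) (m : ℤ) (k : ℕ) (hk : k ≠ 0)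
    (hE : ∀ q ∈ E, (q : ZMod p) ≠ 0) (hM : 0 ≤ M) (hG : Good E M p) (hm : ¬ (p : ℤ) ∣ m) (L : ℕ) :
    |((#(E.filter (fun q : ℕ => (p - 1) / orderOf ((m : ZMod p) * (q : ZMod p)) ∣ k)) : ℕ) : ℝ) -
      #E * gkL k L (p - 1)| ≤
      2 ^ L * M + #E * hL L (p - 1) + (p - 1).primeFactors.card * M := by
  have hp1 : 0 < p - 1 := LC_pos
  have hm' : (m : ZMod p) ≠ 0 := by rwa [Ne, ZMod.intCast_zmod_eq_zero_iff_dvd]
  set a : ℕ → ZMod p := fun q => (m : ZMod p) * (q : ZMod p) with ha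
  have ha0 : ∀ q ∈ E, a q ≠ 0 := fun q hq => mul_ne_zero hm' (hE q hq)
  obtain ⟨P, hP⟩ : ∃ P, P = (Sk k (p - 1)).filter (fun l => l ≤ L) := ⟨_, rfl⟩
  obtain ⟨R, hR⟩ : ∃ R, R = (Sk k (p - 1)).filter (fun l => L < l) := ⟨_, rfl⟩
  have hPs : P ⊆ Sk k (p - 1) := by rw [hP]; exact filter_subset _ _
  have hres : ∀ K : ℕ, K ∣ p - 1 →
      |((#(E.filter fun q : ℕ => a q ^ ((p - 1) / K) = 1) : ℕ) : ℝ) - (#E : ℝ) / K| ≤ M := by
    intro K hK
    have h1 := power_residue E M m hM hG hm K hK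
    have e1 : (E.filter fun q : ℕ => a q ^ ((p - 1) / K) = 1) =
        (E.filter fun q : ℕ => ((m * (q : ℤ) : ℤ) : ZMod p) ^ ((p - 1) / K) = 1) :=
      filter_congr fun q _ => by simp [ha]
    have e2 : (E.filter fun q : ℕ => (q : ZMod p) ≠ 0) = E := by
      rw [filter_eq_self]
      exact hE
    rw [e2] at h1
    rw [e1]
    exact h1
  -- the count with the primes up to L
  have hA : |((#(E.filter fun q : ℕ => ∀ l ∈ P, (a q) ^ ((p - 1) / ql k l) ≠ 1) : ℕ) : ℝ) -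
      (#E : ℝ) * gkL k L (p - 1)| ≤ 2 ^ L * M := by
    have h1 : ((#(E.filter fun q : ℕ => ∀ l ∈ P, (a q) ^ ((p - 1) / ql k l) ≠ 1) : ℕ) : ℝ)
        = ∑ K ∈ P.powerset, (-1 : ℝ) ^ #K *
          ((#(E.filter fun q : ℕ => (a q) ^ ((p - 1) / ∏ l ∈ K, ql k l) = 1) : ℕ) : ℝ) := by
      rw [Finset.card_filter]
      push_cast
      have : ∀ q ∈ E, (if ∀ l ∈ P, (a q) ^ ((p - 1) / ql k l) ≠ 1 then (1 : ℝ) else 0)
          = ∑ K ∈ P.powerset, (-1 : ℝ) ^ #K *
            (if (a q) ^ ((p - 1) / ∏ l ∈ K, ql k l) = 1 then 1 else 0) := by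
        intro q hq
        exact incl_excl _ (ha0 q hq) P hPs
      rw [Finset.sum_congr rfl this, Finset.sum_comm]
      refine Finset.sum_congr rfl fun K _ => ?_
      rw [← Finset.mul_sum]
      congr 1
      rw [Finset.card_filter]
      push_cast
      rfl
    have hPprod : ∏ l ∈ P, (1 - 1 / (ql k l : ℝ)) = gkL k L (p - 1) := by rw [hP]; rfl
    rw [h1, ← hPprod, prod_expand, Finset.mul_sum, ← Finset.sum_sub_distrib]
    calc |∑ K ∈ P.powerset, ((-1 : ℝ) ^ #K *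
          ((#(E.filter fun q : ℕ => (a q) ^ ((p - 1) / ∏ l ∈ K, ql k l) = 1) : ℕ) : ℝ)
          - (#E : ℝ) * ((-1 : ℝ) ^ #K * (1 / ((∏ l ∈ K, ql k l : ℕ) : ℝ))))|
        ≤ ∑ K ∈ P.powerset, |(-1 : ℝ) ^ #K *
          ((#(E.filter fun q : ℕ => (a q) ^ ((p - 1) / ∏ l ∈ K, ql k l) = 1) : ℕ) : ℝ)
          - (#E : ℝ) * ((-1 : ℝ) ^ #K * (1 / ((∏ l ∈ K, ql k l : ℕ) : ℝ)))| :=
          Finset.abs_sum_le_sum_abs _ _
      _ ≤ ∑ K ∈ P.powerset, M := by
          refine Finset.sum_le_sum fun K hK => ?_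
          have hKP := (Finset.mem_powerset.mp hK).trans hPs
          have hd : ∏ l ∈ K, ql k l ∣ p - 1 :=
            (prod_dvd_iff k _ K fun l hl => Sk_prime (hKP hl)).2 fun l hl => Sk_dvd (hKP hl)
          have h2 := hres _ hd
          have h3 : (-1 : ℝ) ^ #K *
            ((#(E.filter fun q : ℕ => (a q) ^ ((p - 1) / ∏ l ∈ K, ql k l) = 1) : ℕ) : ℝ)
            - (#E : ℝ) * ((-1 : ℝ) ^ #K * (1 / ((∏ l ∈ K, ql k l : ℕ) : ℝ)))
            = (-1 : ℝ) ^ #K * (((#(E.filter fun q : ℕ =>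
              (a q) ^ ((p - 1) / ∏ l ∈ K, ql k l) = 1) : ℕ) : ℝ)
              - (#E : ℝ) / ((∏ l ∈ K, ql k l : ℕ) : ℝ)) := by ring
          rw [h3, abs_mul, abs_pow, abs_neg, abs_one, one_pow, one_mul]
          exact h2
      _ = 2 ^ #P * M := by
          rw [Finset.sum_const, Finset.card_powerset, nsmul_eq_mul]
          push_cast
          ring
      _ ≤ 2 ^ L * M := by
          refine mul_le_mul_of_nonneg_right ?_ hM
          refine pow_le_pow_right₀ (by norm_num) ?_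
          have : P ⊆ Finset.Icc 1 L := by
            intro l hl
            rw [hP, Finset.mem_filter] at hl
            exact Finset.mem_Icc.mpr ⟨(Sk_prime (p := p) hl.1).one_le, hl.2⟩
          simpa using Finset.card_le_card this
  set B := E.filter (fun q : ℕ => (p - 1) / orderOf ((m : ZMod p) * (q : ZMod p)) ∣ k) with hB
  set A := E.filter (fun q : ℕ => ∀ l ∈ P, (a q) ^ ((p - 1) / ql k l) ≠ 1) with hAdef
  have hBA : B ⊆ A := by
    intro q hq
    rw [hB, Finset.mem_filter, index_iff hk] at hq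
    rw [hAdef, Finset.mem_filter]
    exact ⟨hq.1, fun l hl => hq.2.2 l (hPs hl)⟩
  have hAB : A ⊆ B ∪ R.biUnion fun l => E.filter fun q : ℕ => (a q) ^ ((p - 1) / ql k l) = 1 := by
    intro q hq
    rw [hAdef, Finset.mem_filter] at hq
    rw [Finset.mem_union, Finset.mem_biUnion]
    by_cases h : ∀ l ∈ R, (a q) ^ ((p - 1) / ql k l) ≠ 1
    · left
      rw [hB, Finset.mem_filter, index_iff hk]
      refine ⟨hq.1, ha0 q hq.1, fun l hl => ?_⟩
      rcases le_or_gt l L with h1 | h1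
      · exact hq.2 l (by rw [hP, mem_filter]; exact ⟨hl, h1⟩)
      · exact h l (by rw [hR, mem_filter]; exact ⟨hl, h1⟩)
    · right
      push Not at h
      obtain ⟨l, hl, hl1⟩ := h
      exact ⟨l, hl, Finset.mem_filter.mpr ⟨hq.1, hl1⟩⟩
  have h1 : (#B : ℝ) ≤ #A := by exact_mod_cast Finset.card_le_card hBA
  have h2 : (#A : ℝ) ≤ #B + ∑ l ∈ R, ((#E : ℝ) / l + M) := by
    have h3 : #A ≤ #B + ∑ l ∈ R, #(E.filter fun q : ℕ => (a q) ^ ((p - 1) / ql k l) = 1) :=
      (Finset.card_le_card hAB).trans ((Finset.card_union_le _ _).trans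
        (Nat.add_le_add_left Finset.card_biUnion_le _))
    calc (#A : ℝ) ≤ #B + ∑ l ∈ R, (#(E.filter fun q : ℕ => (a q) ^ ((p - 1) / ql k l) = 1) : ℝ) := by
          exact_mod_cast h3
      _ ≤ _ := by
          refine add_le_add_right (Finset.sum_le_sum fun l hl => ?_) _
          rw [hR, Finset.mem_filter] at hl
          have h4 := hres _ (Sk_dvd hl.1)
          rw [abs_le] at h4
          have h5 := h4.2
          have hl1 : 1 ≤ l := (Sk_prime (p := p) hl.1).one_le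
          have hl1' : (0 : ℝ) < l := by exact_mod_cast hl1
          have h6 : (#E : ℝ) / (ql k l : ℝ) ≤ #E / l :=
            div_le_div_of_nonneg_left (Nat.cast_nonneg _) hl1' (by exact_mod_cast ql_ge hl1)
          linarith
  have hsum : ∑ l ∈ R, ((#E : ℝ) / l + M) ≤ #E * hL L (p - 1) + (p - 1).primeFactors.card * M := by
    rw [Finset.sum_add_distrib, Finset.sum_const, nsmul_eq_mul]
    have hRs : R ⊆ (p - 1).primeFactors.filter (fun l => L < l) := by
      intro l hl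
      rw [hR, mem_filter] at hl
      rw [mem_filter]
      exact ⟨(mem_filter.1 hl.1).1, hl.2⟩
    refine add_le_add ?_ ?_
    · unfold hL
      rw [Finset.mul_sum]
      refine le_trans (Finset.sum_le_sum_of_subset_of_nonneg hRs fun _ _ _ => by positivity) ?_
      refine Finset.sum_le_sum fun l _ => ?_
      rw [mul_one_div]
    · refine mul_le_mul_of_nonneg_right ?_ hM
      exact_mod_cast Finset.card_le_card (hRs.trans (filter_subset _ _))
  rw [abs_le] at hA ⊢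
  have h2L : (0 : ℝ) ≤ 2 ^ L * M := by positivity
  have hh : 0 ≤ (#E : ℝ) * hL L (p - 1) := by
    refine mul_nonneg (by positivity) ?_
    unfold hL
    exact Finset.sum_nonneg fun l _ => by positivity
  have hw : 0 ≤ ((p - 1).primeFactors.card : ℝ) * M := by positivity
  constructor
  · linarith [hA.1]
  · linarith [hA.2]

end

end Pool.Agent.H981R3.LN
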