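import Mathlib
import Pool.Agent.H981R3.LN.Loc
import Pool.Agent.H386R2.Artin.SumH
import Pool.Agent.H730R2.AA.MainTerm
import Pool.Agent.H730R2.AA.WdLim

set_option autoImplicit false

/-! # The main term: averages of the local densities -/

namespace Pool.Agent.H981R3.LN

open Finset Filter Topology
open Pool.Agent.H386R2.Artin (PP hL sumH)
open Pool.Agent.H730R2.AA (PR wsum_tendsto pc_atTop)
open Pool.Agent.H730R2.AA.MTLib (mod_iff)
open Pool.Agent.H730R2.AA.Euler (mu_eq_prod summable_bound sqrt_le_totient)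

/-- the residue class of `p` modulo `f` belongs to `A` -/
def InA (f : ℕ) (A : Finset (ZMod f)ˣ) (p : ℕ) : Prop :=
  ∃ a ∈ A, ((p : ℕ) : ZMod f) = (a : ZMod f)

/-- number of `a ∈ A` congruent to `1` modulo `gcd(f, q)` -/
def cA (f : ℕ) (A : Finset (ZMod f)ˣ) (q : ℕ) : ℕ :=
  (A.filter fun a : (ZMod f)ˣ => (a : ZMod f).val ≡ 1 [MOD Nat.gcd f q]).card

/-- `∏_{ℓ ∣ n} ℓ ^ (ν_ℓ(k) + 1)` -/
def Qn (k n : ℕ) : ℕ := ∏ l ∈ n.primeFactors, ql k l

/-- the term of the series for the density -/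
noncomputable def term (f : ℕ) (A : Finset (ZMod f)ˣ) (k n : ℕ) : ℝ :=
  ((ArithmeticFunction.moebius n : ℤ) : ℝ) * (cA f A (Qn k n) : ℝ) /
    ((Qn k n : ℝ) * (Nat.totient (Nat.lcm f (Qn k n)) : ℝ))

lemma prime_sum_swap (F : ℕ → ℝ) (B l : ℝ) (hF : |F 2| ≤ B)
    (h : Tendsto (fun x : ℕ => (∑ p ∈ PR 1 x, F p) / (Nat.primeCounting x : ℝ)) atTop (𝓝 l)) :
    Tendsto (fun x : ℕ => (∑ p ∈ PP x, F p) / (Nat.primeCounting x : ℝ)) atTop (𝓝 l) := by
  have hdiff : ∀ x : ℕ, |(∑ p ∈ PP x, F p) - ∑ p ∈ PR 1 x, F p| ≤ B := by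
    intro x
    have hsub : PR 1 x ⊆ PP x := by
      intro p hp
      unfold PR at hp
      unfold PP
      rw [mem_filter] at hp ⊢
      exact ⟨hp.1, hp.2.1⟩
    rw [← Finset.sum_sdiff hsub, add_sub_cancel_right]
    have hs2 : PP x \ PR 1 x ⊆ {2} := by
      intro p hp
      rw [Finset.mem_sdiff] at hp
      obtain ⟨h1, h2⟩ := hp
      unfold PP at h1
      unfold PR at h2
      rw [mem_filter] at h1 h2
      rw [mem_singleton]
      by_contra h3
      refine h2 ⟨h1.1, h1.2, h3, fun h4 => ?_⟩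
      have h5 : (p : ℤ) ≤ 1 := Int.le_of_dvd one_pos h4
      have := h1.2.two_le
      omega
    refine (Finset.abs_sum_le_sum_abs _ _).trans ?_
    refine (Finset.sum_le_sum_of_subset_of_nonneg hs2 fun _ _ _ => abs_nonneg _).trans ?_
    rw [sum_singleton]
    exact hF
  have h3 : Tendsto (fun x : ℕ => ((∑ p ∈ PP x, F p) - ∑ p ∈ PR 1 x, F p) /
      (Nat.primeCounting x : ℝ)) atTop (𝓝 0) := by
    have h4 : Tendsto (fun x : ℕ => B / (Nat.primeCounting x : ℝ)) atTop (𝓝 0) :=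
      pc_atTop.const_div_atTop _
    refine squeeze_zero_norm (fun x => ?_) h4
    rw [Real.norm_eq_abs, abs_div, Nat.abs_cast]
    exact div_le_div_of_nonneg_right (hdiff x) (Nat.cast_nonneg _)
  have h5 := h3.add h
  rw [zero_add] at h5
  refine h5.congr fun x => ?_
  ring

lemma coprime_of_modEq_one {v q : ℕ} (h : v ≡ 1 [MOD q]) : Nat.Coprime v q := by
  have h1 : Nat.gcd v q = Nat.gcd 1 q := h.gcd_eq
  rw [Nat.gcd_one_left] at h1
  exact h1

open Classical in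
lemma card_units (f Q : ℕ) [NeZero f] (_hQ : 0 < Q) (A : Finset (ZMod f)ˣ)
    [NeZero (Nat.lcm f Q)] :
    ((Finset.univ : Finset (ZMod (Nat.lcm f Q))ˣ).filter (fun u : (ZMod (Nat.lcm f Q))ˣ =>
      InA f A ((u : ZMod (Nat.lcm f Q)).val) ∧ (u : ZMod (Nat.lcm f Q)).val ≡ 1 [MOD Q])).card =
    cA f A Q := by
  set N := Nat.lcm f Q with hN
  have hfN : f ∣ N := Nat.dvd_lcm_left f Q
  have hQN : Q ∣ N := Nat.dvd_lcm_right f Q
  unfold cA
  have hval : ∀ u : (ZMod N)ˣ, ((ZMod.unitsMap hfN u : (ZMod f)ˣ) : ZMod f) =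
      (((u : ZMod N).val : ℕ) : ZMod f) := by
    intro u
    rw [ZMod.unitsMap_val, ZMod.cast_eq_val]
  refine Finset.card_bij (fun u _ => ZMod.unitsMap hfN u) ?_ ?_ ?_
  · intro u hu
    rw [mem_filter] at hu ⊢
    obtain ⟨-, ⟨a, haA, ha⟩, h2⟩ := hu
    have h3 : ZMod.unitsMap hfN u = a := by
      apply Units.ext
      rw [hval, ha]
    refine ⟨h3 ▸ haA, ?_⟩
    rw [hval, ZMod.val_natCast]
    have h4 : (u : ZMod N).val % f ≡ (u : ZMod N).val [MOD Nat.gcd f Q] :=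
      (Nat.mod_modEq _ _).of_dvd (Nat.gcd_dvd_left f Q)
    exact h4.trans (h2.of_dvd (Nat.gcd_dvd_right f Q))
  · intro u hu v hv huv
    rw [mem_filter] at hu hv
    have h1 : (u : ZMod N).val ≡ (v : ZMod N).val [MOD f] := by
      have h2 : (((u : ZMod N).val : ℕ) : ZMod f) = (((v : ZMod N).val : ℕ) : ZMod f) := by
        rw [← hval, ← hval, huv]
      exact (ZMod.natCast_eq_natCast_iff _ _ _).1 h2
    have h2 : (u : ZMod N).val ≡ (v : ZMod N).val [MOD Q] := hu.2.2.trans hv.2.2.symm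
    have h3 : (u : ZMod N).val ≡ (v : ZMod N).val [MOD N] := by
      rw [Nat.modEq_iff_dvd] at h1 h2 ⊢
      rw [Int.natCast_dvd] at h1 h2 ⊢
      exact Nat.lcm_dvd h1 h2
    apply Units.ext
    have h4 := (ZMod.natCast_eq_natCast_iff _ _ _).2 h3
    rwa [ZMod.natCast_zmod_val, ZMod.natCast_zmod_val] at h4
  · intro a ha
    rw [mem_filter] at ha
    obtain ⟨haA, ha1⟩ := ha
    obtain ⟨v, hv1, hv2⟩ := Nat.chineseRemainder' ha1
    have hc1 : Nat.Coprime v f := by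
      have h1 : Nat.gcd v f = Nat.gcd (a : ZMod f).val f := hv1.gcd_eq
      have h2 : Nat.Coprime (a : ZMod f).val f := ZMod.val_coe_unit_coprime a
      unfold Nat.Coprime at h2 ⊢
      rw [h1, h2]
    have hc2 : Nat.Coprime v Q := coprime_of_modEq_one hv2
    have hc : Nat.Coprime v N := (hc1.mul_right hc2).coprime_dvd_right (Nat.lcm_dvd_mul f Q)
    have hval2 : ((ZMod.unitOfCoprime v hc : (ZMod N)ˣ) : ZMod N).val = v % N := by
      rw [ZMod.coe_unitOfCoprime, ZMod.val_natCast]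
    have e1 : (((v % N : ℕ)) : ZMod f) = (a : ZMod f) := by
      have h1 : v % N ≡ v [MOD f] := (Nat.mod_modEq _ _).of_dvd hfN
      have h2 := (ZMod.natCast_eq_natCast_iff _ _ _).2 (h1.trans hv1)
      rw [h2, ZMod.natCast_zmod_val]
    refine ⟨ZMod.unitOfCoprime v hc, ?_, ?_⟩
    · rw [mem_filter]
      refine ⟨Finset.mem_univ _, ⟨a, haA, ?_⟩, ?_⟩
      · rw [hval2, e1]
      · rw [hval2]
        exact ((Nat.mod_modEq _ _).of_dvd hQN).trans hv2
    · apply Units.ext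
      rw [hval, hval2, e1]

open Classical in
/-- density of the primes `p ≡ 1 mod Q` whose class modulo `f` belongs to `A` -/
lemma dens_class (f Q : ℕ) [NeZero f] (hQ : 0 < Q) (A : Finset (ZMod f)ˣ) :
    Tendsto (fun x : ℕ => (∑ p ∈ PP x, if InA f A p ∧ Q ∣ p - 1 then (1 : ℝ) else 0) /
      (Nat.primeCounting x : ℝ)) atTop
      (𝓝 ((cA f A Q : ℝ) / (Nat.totient (Nat.lcm f Q) : ℝ))) := by
  have hf : 0 < f := NeZero.pos f
  have hN0 : NeZero (Nat.lcm f Q) := ⟨(Nat.lcm_pos hf hQ).ne'⟩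
  set N := Nat.lcm f Q with hN
  have hfN : f ∣ N := Nat.dvd_lcm_left f Q
  have hQN : Q ∣ N := Nat.dvd_lcm_right f Q
  set w : ZMod N → ℝ := fun z => if InA f A z.val ∧ z.val ≡ 1 [MOD Q] then 1 else 0 with hw
  have h1 := wsum_tendsto 1 one_ne_zero N w
  have h2 : ∑ u : (ZMod N)ˣ, w (u : ZMod N) = (cA f A Q : ℝ) := by
    rw [hw, Finset.sum_boole, card_units f Q hQ A]
  rw [h2] at h1
  apply prime_sum_swap _ 1 _ (by split_ifs <;> simp)
  refine h1.congr fun x => ?_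
  congr 1
  refine Finset.sum_congr rfl fun p hp => ?_
  have hp1 : 1 ≤ p := by
    unfold PR at hp
    rw [mem_filter] at hp
    exact hp.2.1.one_lt.le
  simp only [hw]
  have e1 : InA f A ((p : ZMod N)).val ↔ InA f A p := by
    rw [ZMod.val_natCast]
    have h3 : (((p % N : ℕ)) : ZMod f) = (p : ZMod f) :=
      (ZMod.natCast_eq_natCast_iff _ _ _).2 ((Nat.mod_modEq _ _).of_dvd hfN)
    unfold InA
    rw [h3]
  have e2 : ((p : ZMod N)).val ≡ 1 [MOD Q] ↔ Q ∣ p - 1 := by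
    rw [ZMod.val_natCast, ← mod_iff hp1]
    have h3 : p % N ≡ p [MOD Q] := (Nat.mod_modEq _ _).of_dvd hQN
    exact ⟨fun h => h3.symm.trans h, fun h => h3.trans h⟩
  simp only [e1, e2]

end Pool.Agent.H981R3.LN
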