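import Mathlib
import Pool.Agent.H981R3.LN.Lim
import Pool.Agent.H771R4.AQ.MainLim

set_option autoImplicit false

/-! # The main term: the limit -/

namespace Pool.Agent.H981R3.LN

open Finset Filter Topology
open Pool.Agent.H386R2.Artin (PP hL sumH)
open Pool.Agent.H730R2.AA (PR wsum_tendsto pc_atTop)
open Pool.Agent.H730R2.AA.Euler (mu_eq_prod summable_bound sqrt_le_totient)

lemma mem_PP {x p : ℕ} : p ∈ PP x ↔ p ≤ x ∧ p.Prime := by
  unfold PP
  rw [mem_filter, mem_range]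
  exact ⟨fun h => ⟨by omega, h.2⟩, fun h => ⟨by omega, h.2⟩⟩

open Classical in
lemma gkL_expand (k L n : ℕ) (hn : n ≠ 0) : gkL k L n = ∑ K ∈ (PP L).powerset,
    (-1 : ℝ) ^ #K * (1 / ((∏ l ∈ K, ql k l : ℕ) : ℝ)) *
      (if ∏ l ∈ K, ql k l ∣ n then 1 else 0) := by
  unfold gkL
  rw [prod_expand]
  have hsub : ((Sk k n).filter (fun l => l ≤ L)).powerset ⊆ (PP L).powerset := by
    rw [Finset.powerset_mono]
    intro l hl
    rw [mem_filter, mem_Sk hn] at hl
    exact mem_PP.2 ⟨hl.2, hl.1.1⟩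
  rw [← Finset.sum_subset hsub]
  · refine Finset.sum_congr rfl fun K hK => ?_
    rw [mem_powerset] at hK
    rw [if_pos, mul_one]
    refine (prod_dvd_iff k n K fun l hl => ?_).2 fun l hl => ?_
    · exact ((mem_Sk hn).1 (mem_filter.1 (hK hl)).1).1
    · exact ((mem_Sk hn).1 (mem_filter.1 (hK hl)).1).2
  · intro K hK hK2
    rw [mem_powerset] at hK hK2
    rw [if_neg, mul_zero]
    intro h
    apply hK2
    intro l hl
    have h1 := mem_PP.1 (hK hl)
    rw [mem_filter, mem_Sk hn]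
    exact ⟨⟨h1.2, (prod_dvd_iff k n K fun l hl => (mem_PP.1 (hK hl)).2).1 h l hl⟩, h1.1⟩

/-- the limit of the averages with the primes up to `L` -/
noncomputable def dL (f : ℕ) (A : Finset (ZMod f)ˣ) (k L : ℕ) : ℝ :=
  ∑ K ∈ (PP L).powerset, (-1 : ℝ) ^ #K * (1 / ((∏ l ∈ K, ql k l : ℕ) : ℝ)) *
    ((cA f A (∏ l ∈ K, ql k l) : ℝ) / (Nat.totient (Nat.lcm f (∏ l ∈ K, ql k l)) : ℝ))

lemma prod_ql_pos {k : ℕ} {K : Finset ℕ} (hK : ∀ l ∈ K, l.Prime) : 0 < ∏ l ∈ K, ql k l :=
  Finset.prod_pos fun l hl => Nat.pow_pos (hK l hl).pos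

open Classical in
lemma avg_L (f : ℕ) [NeZero f] (A : Finset (ZMod f)ˣ) (k L : ℕ) :
    Tendsto (fun x : ℕ => (∑ p ∈ PP x, if InA f A p then gkL k L (p - 1) else 0) /
      (Nat.primeCounting x : ℝ)) atTop (𝓝 (dL f A k L)) := by
  have h1 : ∀ x : ℕ, (∑ p ∈ PP x, if InA f A p then gkL k L (p - 1) else 0) /
      (Nat.primeCounting x : ℝ) = ∑ K ∈ (PP L).powerset,
        (-1 : ℝ) ^ #K * (1 / ((∏ l ∈ K, ql k l : ℕ) : ℝ)) *
          ((∑ p ∈ PP x, if InA f A p ∧ ∏ l ∈ K, ql k l ∣ p - 1 then (1 : ℝ) else 0) /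
            (Nat.primeCounting x : ℝ)) := by
    intro x
    have h2 : ∀ p ∈ PP x, (if InA f A p then gkL k L (p - 1) else 0) =
        ∑ K ∈ (PP L).powerset, (-1 : ℝ) ^ #K * (1 / ((∏ l ∈ K, ql k l : ℕ) : ℝ)) *
          (if InA f A p ∧ ∏ l ∈ K, ql k l ∣ p - 1 then (1 : ℝ) else 0) := by
      intro p hp
      have hp2 := (mem_PP.1 hp).2.two_le
      by_cases hA : InA f A p
      · rw [if_pos hA, gkL_expand k L (p - 1) (by omega)]
        refine Finset.sum_congr rfl fun K _ => ?_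
        simp only [hA, true_and]
      · rw [if_neg hA]
        symm
        refine Finset.sum_eq_zero fun K _ => ?_
        rw [if_neg (fun h => hA h.1), mul_zero]
    rw [Finset.sum_congr rfl h2, Finset.sum_comm, Finset.sum_div]
    refine Finset.sum_congr rfl fun K _ => ?_
    rw [← Finset.mul_sum, mul_div_assoc]
  simp_rw [h1]
  unfold dL
  apply tendsto_finsetSum
  intro K hK
  rw [mem_powerset] at hK
  apply Tendsto.const_mul
  exact dens_class f _ (prod_ql_pos fun l hl => (mem_PP.1 (hK hl)).2) A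

/-- Lenstra's series -/
noncomputable def lenD (f : ℕ) (A : Finset (ZMod f)ˣ) (k : ℕ) : ℝ := ∑' n : ℕ, term f A k n

lemma cA_le (f : ℕ) (A : Finset (ZMod f)ˣ) (q : ℕ) : cA f A q ≤ #A := by
  unfold cA
  exact Finset.card_le_card (Finset.filter_subset _ _)

lemma Qn_dvd (k n : ℕ) (hn : Squarefree n) : n ∣ Qn k n := by
  unfold Qn
  conv_lhs => rw [← Nat.prod_primeFactors_of_squarefree hn]
  exact Finset.prod_dvd_prod_of_dvd _ _ fun l _ => dvd_pow_self l (Nat.succ_ne_zero _)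

lemma Qn_pos (k n : ℕ) : 0 < Qn k n :=
  prod_ql_pos fun _ hl => Nat.prime_of_mem_primeFactors hl

lemma term_bound (f : ℕ) [NeZero f] (A : Finset (ZMod f)ˣ) (k n : ℕ) :
    ‖term f A k n‖ ≤ (#A : ℝ) * (2 * (1 / (n : ℝ) ^ (3 / 2 : ℝ))) := by
  rw [Real.norm_eq_abs]
  by_cases hs : Squarefree n
  · have hn : 0 < n := Nat.pos_of_ne_zero hs.ne_zero
    have hn0 : (0 : ℝ) < n := by exact_mod_cast hn
    unfold term
    set Q := Qn k n with hQ
    have hQ0 : 0 < Q := Qn_pos k n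
    have hQn : n ≤ Q := Nat.le_of_dvd hQ0 (Qn_dvd k n hs)
    have hlcm : 0 < Nat.lcm f Q := Nat.lcm_pos (NeZero.pos f) hQ0
    have ht : Nat.totient n ≤ Nat.totient (Nat.lcm f Q) :=
      Nat.le_of_dvd (Nat.totient_pos.2 hlcm)
        (Nat.totient_dvd_of_dvd ((Qn_dvd k n hs).trans (Nat.dvd_lcm_right f Q)))
    have ht0 : 0 < Nat.totient n := Nat.totient_pos.2 hn
    have h1 : |((ArithmeticFunction.moebius n : ℤ) : ℝ)| ≤ 1 := by
      exact_mod_cast ArithmeticFunction.abs_moebius_le_one (n := n)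
    have h2 : (cA f A Q : ℝ) ≤ #A := by exact_mod_cast cA_le f A Q
    have h3 := sqrt_le_totient n hn
    have h4 : (n : ℝ) ≤ Q := by exact_mod_cast hQn
    have h5 : (Nat.totient n : ℝ) ≤ Nat.totient (Nat.lcm f Q) := by exact_mod_cast ht
    have h6 : (0 : ℝ) < Nat.totient n := by exact_mod_cast ht0
    have h7 : (n : ℝ) ^ (3 / 2 : ℝ) = n * Real.sqrt n := by
      rw [show (3 / 2 : ℝ) = 1 + 1 / 2 by norm_num, Real.rpow_add hn0, Real.rpow_one,
        ← Real.sqrt_eq_rpow]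
    have hs0 : 0 < Real.sqrt n := Real.sqrt_pos.mpr hn0
    have h8 : (n : ℝ) * Real.sqrt n ≤ 2 * ((Q : ℝ) * Nat.totient (Nat.lcm f Q)) := by
      calc (n : ℝ) * Real.sqrt n ≤ n * (2 * Nat.totient n) := by gcongr
        _ ≤ Q * (2 * Nat.totient (Nat.lcm f Q)) := by gcongr
        _ = _ := by ring
    have h9 : (0 : ℝ) < (Q : ℝ) * Nat.totient (Nat.lcm f Q) := by
      have : (0 : ℝ) < n * Real.sqrt n := by positivity
      linarith
    rw [abs_div, abs_of_pos h9, abs_mul, Nat.abs_cast, h7]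
    rw [div_le_iff₀ h9]
    have hc0 : (0 : ℝ) ≤ cA f A Q := Nat.cast_nonneg _
    have hA0 : (0 : ℝ) ≤ #A := Nat.cast_nonneg _
    calc |((ArithmeticFunction.moebius n : ℤ) : ℝ)| * (cA f A Q : ℝ) ≤ 1 * #A := by gcongr
      _ = #A := one_mul _
      _ = #A * (1 / (n * Real.sqrt n) * (n * Real.sqrt n)) := by field_simp
      _ ≤ #A * (1 / (n * Real.sqrt n) * (2 * ((Q : ℝ) * Nat.totient (Nat.lcm f Q)))) := by gcongr
      _ = _ := by ring
  · have h0 : term f A k n = 0 := by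
      unfold term
      rw [ArithmeticFunction.moebius_eq_zero_of_not_squarefree hs]
      simp
    rw [h0, abs_zero]
    positivity

lemma term_summable (f : ℕ) [NeZero f] (A : Finset (ZMod f)ˣ) (k : ℕ) :
    Summable (term f A k) :=
  Summable.of_norm_bounded (summable_bound.mul_left (#A : ℝ)) (term_bound f A k)

/-- the squarefree numbers with all prime factors at most `L` -/
def SL (L : ℕ) : Finset ℕ := (PP L).powerset.image fun K => ∏ l ∈ K, l

lemma dL_eq (f : ℕ) (A : Finset (ZMod f)ˣ) (k L : ℕ) : dL f A k L = ∑ n ∈ SL L, term f A k n := by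
  unfold SL dL
  rw [Finset.sum_image]
  · refine Finset.sum_congr rfl fun K hK => ?_
    rw [mem_powerset] at hK
    have hp : ∀ l ∈ K, l.Prime := fun l hl => (mem_PP.1 (hK hl)).2
    have h1 : (∏ l ∈ K, l).primeFactors = K := Nat.primeFactors_prod hp
    have hsq : Squarefree (∏ l ∈ K, l) := Pool.Agent.H771R4.AQ.sqf_prod K hp
    unfold term
    rw [mu_eq_prod _ hsq, h1, Finset.prod_const]
    have h2 : Qn k (∏ l ∈ K, l) = ∏ l ∈ K, ql k l := by
      unfold Qn
      rw [h1]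
    rw [h2]
    have h3 : (0 : ℝ) < ((∏ l ∈ K, ql k l : ℕ) : ℝ) := by exact_mod_cast prod_ql_pos hp
    rw [mul_one_div, div_mul_div_comm]
  · intro K hK K' hK' h
    simp only [Finset.coe_powerset, Set.mem_preimage, Set.mem_powerset_iff, Finset.coe_subset]
      at hK hK'
    have h1 : (∏ l ∈ K, l).primeFactors = K :=
      Nat.primeFactors_prod fun l hl => (mem_PP.1 (hK hl)).2
    have h2 : (∏ l ∈ K', l).primeFactors = K' :=
      Nat.primeFactors_prod fun l hl => (mem_PP.1 (hK' hl)).2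
    rw [← h1, ← h2]
    exact congrArg Nat.primeFactors h

lemma mem_SL {L n : ℕ} (hn : Squarefree n) (hL : n ≤ L) : n ∈ SL L := by
  unfold SL
  rw [mem_image]
  refine ⟨n.primeFactors, ?_, Nat.prod_primeFactors_of_squarefree hn⟩
  rw [mem_powerset]
  intro l hl
  exact mem_PP.2 ⟨(Nat.le_of_mem_primeFactors hl).trans hL, Nat.prime_of_mem_primeFactors hl⟩

lemma dL_tendsto (f : ℕ) [NeZero f] (A : Finset (ZMod f)ˣ) (k : ℕ) :
    Tendsto (dL f A k) atTop (𝓝 (lenD f A k)) := by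
  have h := (term_summable f A k).hasSum
  rw [Metric.tendsto_atTop]
  intro ε hε
  have h1 := (Metric.tendsto_nhds.1 h) ε hε
  obtain ⟨s, hs⟩ := (Filter.eventually_atTop.1 h1)
  refine ⟨s.sup id, fun L hL => ?_⟩
  have h2 := hs (SL L ∪ s) subset_union_right
  rw [dL_eq]
  have h3 : ∑ n ∈ SL L, term f A k n = ∑ n ∈ SL L ∪ s, term f A k n := by
    refine Finset.sum_subset subset_union_left fun n hn hn2 => ?_
    rw [mem_union] at hn
    have hns : n ∈ s := hn.resolve_left hn2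
    have hnL : n ≤ L := (Finset.le_sup (f := id) hns).trans hL
    have hsq : ¬ Squarefree n := fun h => hn2 (mem_SL h hnL)
    unfold term
    rw [ArithmeticFunction.moebius_eq_zero_of_not_squarefree hsq]
    simp
  rw [h3]
  exact h2

open Classical in
/-- the average of the local densities -/
theorem main_lim (f : ℕ) [NeZero f] (A : Finset (ZMod f)ˣ) (k : ℕ) :
    Tendsto (fun x : ℕ => (∑ p ∈ PP x, if InA f A p then gk k (p - 1) else 0) /
      (Nat.primeCounting x : ℝ)) atTop (𝓝 (lenD f A k)) := by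
  obtain ⟨C, hC, h5⟩ := sumH
  have h7 := dL_tendsto f A k
  rw [Metric.tendsto_atTop]
  intro ε hε
  have hLlim : ∀ᶠ L : ℕ in atTop, |dL f A k L - lenD f A k| < ε / 4 := by
    have := (Metric.tendsto_nhds.1 h7) (ε / 4) (by positivity)
    simpa [Real.dist_eq] using this
  have hCL : ∀ᶠ L : ℕ in atTop, C / (L : ℝ) < ε / 4 := by
    have : Tendsto (fun L : ℕ => C / (L : ℝ)) atTop (𝓝 0) :=
      tendsto_const_nhds.div_atTop tendsto_natCast_atTop_atTop
    exact this.eventually (gt_mem_nhds (by positivity))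
  obtain ⟨L, ⟨hL1, hL2⟩, hL3⟩ := ((hLlim.and hCL).and (eventually_ge_atTop 1)).exists
  obtain ⟨x₅, hx₅⟩ := h5 L hL3
  have hG : ∀ᶠ x : ℕ in atTop, |(∑ p ∈ PP x, if InA f A p then gkL k L (p - 1) else 0) /
      (Nat.primeCounting x : ℝ) - dL f A k L| < ε / 4 := by
    have := (Metric.tendsto_nhds.1 (avg_L f A k L)) (ε / 4) (by positivity)
    simpa [Real.dist_eq] using this
  have hπ : ∀ᶠ x : ℕ in atTop, (1 : ℝ) ≤ (Nat.primeCounting x : ℝ) :=
    (Filter.tendsto_atTop.mp (tendsto_natCast_atTop_atTop.comp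
      Nat.tendsto_primeCounting) _)
  obtain ⟨x₀, hx₀⟩ := eventually_atTop.1 ((hG.and hπ).and (eventually_ge_atTop x₅))
  refine ⟨x₀, fun x hx => ?_⟩
  obtain ⟨⟨g1, g2⟩, g3⟩ := hx₀ x hx
  set P : ℝ := (Nat.primeCounting x : ℝ) with hP
  have hP0 : 0 < P := lt_of_lt_of_le one_pos g2
  have hh := hx₅ x g3
  set SG : ℝ := ∑ p ∈ PP x, if InA f A p then gkL k L (p - 1) else 0 with hSG
  set SR : ℝ := ∑ p ∈ PP x, if InA f A p then gk k (p - 1) else 0 with hSR
  have h13 : |SG - SR| ≤ C / L * P := by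
    rw [hSG, hSR, ← Finset.sum_sub_distrib]
    refine (Finset.abs_sum_le_sum_abs _ _).trans ?_
    refine le_trans ?_ hh
    apply Finset.sum_le_sum
    intro p hp
    have : Fact p.Prime := ⟨(mem_PP.1 hp).2⟩
    obtain ⟨c1, c2⟩ := gkL_gk (p := p) k L
    have hh0 : 0 ≤ hL L (p - 1) := Finset.sum_nonneg fun l _ => by positivity
    split_ifs
    · rw [abs_of_nonneg c1]
      exact c2
    · simpa using hh0
  have h14 : |SG - dL f A k L * P| ≤ ε / 4 * P := by
    have e1 : SG - dL f A k L * P = (SG / P - dL f A k L) * P := by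
      field_simp
    rw [e1, abs_mul, abs_of_pos hP0]
    exact mul_le_mul_of_nonneg_right g1.le hP0.le
  have h15 : |dL f A k L * P - lenD f A k * P| ≤ ε / 4 * P := by
    rw [← sub_mul, abs_mul, abs_of_pos hP0]
    exact mul_le_mul_of_nonneg_right hL1.le hP0.le
  have h16 : |SR - lenD f A k * P| < ε * P := by
    have t1 : C / L * P ≤ ε / 4 * P := mul_le_mul_of_nonneg_right hL2.le hP0.le
    rw [abs_le] at h13 h14 h15
    rw [abs_lt]
    have : 0 < ε * P := by positivity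
    constructor
    · linarith [h13.1, h13.2, h14.1, h14.2, h15.1, h15.2]
    · linarith [h13.1, h13.2, h14.1, h14.2, h15.1, h15.2]
  rw [Real.dist_eq]
  have h17 : SR / P - lenD f A k = (SR - lenD f A k * P) / P := by
    field_simp
  rw [h17, abs_div, abs_of_pos hP0, div_lt_iff₀ hP0]
  exact h16

end Pool.Agent.H981R3.LN
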