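import Mathlib
import Pool.Agent.H981R3.LN.Lim2
import Pool.Agent.H771R4.SE.AllX2

set_option autoImplicit false

/-! # The counting problem of Lenstra's conjecture for cyclic `W` and cyclotomic `F` -/

namespace Pool.Agent.H981R3.LN

open Finset Filter Topology
open Pool.Agent.H386R2.Artin (PP Good hL)
open Pool.Agent.H771R4.SE (Dat not_dvd_of_lt err_nn hL_nn)

open Classical in
/-- primes whose class modulo `f` belongs to `A` and modulo which the index of `D n` divides `k` -/
noncomputable def dLen (f : ℕ) [NeZero f] (A : Finset (ZMod f)ˣ) (k : ℕ) (hk : k ≠ 0) (D : ℤ)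
    (hD : D ≠ 0) : Dat where
  Q := fun p a => InA f A p ∧ (p - 1) / orderOf ((D : ZMod p) * a) ∣ k
  G := fun p => if p.Prime ∧ InA f A p then gk k (p - 1) else 0
  A := lenD f A k
  p0 := D.natAbs + 1
  G0 := fun p => by
    split_ifs with h
    · have : Fact p.Prime := ⟨h.1⟩
      exact gk_nonneg (p := p) k
    · exact le_rfl
  G1 := fun p => by
    split_ifs with h
    · have : Fact p.Prime := ⟨h.1⟩
      exact (gk_le_one (p := p) k).trans (by norm_num)
    · norm_num
  loc := by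
    intro p hp hp0 E M L _ hE hM hG
    have : Fact p.Prime := ⟨hp⟩
    have hpD : ¬ (p : ℤ) ∣ D := not_dvd_of_lt hD hp0
    by_cases hA : InA f A p
    · have h := index_count E M D k hk hE hM hG hpD L
      obtain ⟨c1, c2⟩ := gkL_gk (p := p) k L
      have hE0 : (0 : ℝ) ≤ #E := Nat.cast_nonneg _
      have c3 : (#E : ℝ) * (gkL k L (p - 1) - gk k (p - 1)) ≤ #E * hL L (p - 1) :=
        mul_le_mul_of_nonneg_left c2 hE0
      have c4 : 0 ≤ (#E : ℝ) * (gkL k L (p - 1) - gk k (p - 1)) := mul_nonneg hE0 c1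
      have c5 : 0 ≤ (#E : ℝ) * hL L (p - 1) := mul_nonneg hE0 (hL_nn L p)
      rw [if_pos ⟨hp, hA⟩]
      have e2 : (E.filter (fun q : ℕ => InA f A p ∧
          (p - 1) / orderOf ((D : ZMod p) * ((q : ℕ) : ZMod p)) ∣ k)) =
          (E.filter (fun q : ℕ => (p - 1) / orderOf ((D : ZMod p) * ((q : ℕ) : ZMod p)) ∣ k)) := by
        apply filter_congr
        intro q _
        simp only [hA, true_and]
      suffices key : |((#(E.filter (fun q : ℕ => InA f A p ∧
          (p - 1) / orderOf ((D : ZMod p) * ((q : ℕ) : ZMod p)) ∣ k)) : ℕ) : ℝ) -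
            #E * gk k (p - 1)| ≤
          1 + 2 ^ L * M + 3 * (#E * hL L (p - 1)) + (p - 1).primeFactors.card * M by
        refine le_trans (le_of_eq ?_) key
        congr!
      rw [e2]
      replace h : |((#(E.filter (fun q : ℕ =>
          (p - 1) / orderOf ((D : ZMod p) * ((q : ℕ) : ZMod p)) ∣ k)) : ℕ) : ℝ) -
            #E * gkL k L (p - 1)| ≤
          2 ^ L * M + #E * hL L (p - 1) + (p - 1).primeFactors.card * M := by
        refine le_trans (le_of_eq ?_) h
        congr!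
      rw [abs_le] at h ⊢
      constructor
      · linarith [h.1]
      · linarith [h.2]
    · rw [if_neg (fun h => hA h.2), mul_zero, sub_zero]
      have e2 : ((#(E.filter (fun q : ℕ => InA f A p ∧
          (p - 1) / orderOf ((D : ZMod p) * ((q : ℕ) : ZMod p)) ∣ k)) : ℕ) : ℝ) = 0 := by
        rw [filter_eq_empty_iff.2 (fun q _ hcon => hA hcon.1)]
        simp
      refine le_trans (le_of_eq ?_) (err_nn p E M L hM)
      rw [abs_eq_zero]
      refine Eq.trans ?_ e2
      congr!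
  lim := by
    refine (main_lim f A k).congr fun x => ?_
    congr 1
    refine Finset.sum_congr rfl fun p hp => ?_
    have h1 := (mem_PP.1 hp).2
    simp only [h1, true_and]

open Classical in
/-- Lenstra's conjecture on average -/
theorem lenstra (θ C : ℝ) (hθ : 1 / 2 < θ) (hθ1 : θ < 1) (hC : 1 < C)
    (hCθ : θ * (1 - θ) < C * (2 * θ - 1)) :
    ∃ c : ℝ, 0 < c ∧ ∀ (f : ℕ) [NeZero f] (A : Finset (ZMod f)ˣ) (k : ℕ), 1 ≤ k →
      ∀ D : ℤ, D ≠ 0 → ∀ ε : ℝ, 0 < ε → ∃ N₀ : ℕ, ∀ N : ℕ, N₀ ≤ N →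
        (((Finset.Icc 1 N).filter (fun n : ℕ => ∃ x : ℕ, (N : ℝ) ^ C ≤ x ∧
          (x : ℝ) ≤ Real.exp ((Real.log N) ^ (1 + c)) ∧
          ε * (Nat.primeCounting x : ℝ) <
            |((((Finset.range (x + 1)).filter (fun p : ℕ => p.Prime ∧ InA f A p ∧
              (p - 1) / orderOf ((D * (n : ℤ) : ℤ) : ZMod p) ∣ k)).card : ℕ) : ℝ) -
                lenD f A k * (Nat.primeCounting x : ℝ)|)).card : ℝ) ≤ (N : ℝ) ^ θ := by
  obtain ⟨c, hc, h⟩ := Pool.Agent.H771R4.SE.allX2 θ C hθ hθ1 hC hCθ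
  refine ⟨c, hc, fun f hf A k hk D hD ε hε => ?_⟩
  obtain ⟨N₁, h₁⟩ := h (dLen f A k (by omega) D hD) ε hε
  refine ⟨N₁, fun N hN => ?_⟩
  refine le_trans (Nat.cast_le.2 (Finset.card_le_card ?_)) (h₁ N hN)
  intro m hm
  rw [Finset.mem_filter] at hm
  unfold Pool.Agent.H771R4.SE.badY
  rw [Finset.mem_filter]
  obtain ⟨h2, x, h3, h4, h5⟩ := hm
  refine ⟨h2, x, h3, h4, ?_⟩
  have e : ((Finset.range (x + 1)).filter (fun p : ℕ => p.Prime ∧ InA f A p ∧
      (p - 1) / orderOf ((D * (m : ℤ) : ℤ) : ZMod p) ∣ k)).card =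
      Pool.Agent.H771R4.SE.cntE (dLen f A k (by omega) D hD) m x := by
    unfold Pool.Agent.H771R4.SE.cntE
    apply congrArg Finset.card
    apply Finset.filter_congr_decidable _ _ _ |>.symm.trans
    apply Finset.filter_congr
    intro p _
    simp only [dLen, Int.cast_mul, Int.cast_natCast]
  rw [e] at h5
  exact h5

end Pool.Agent.H981R3.LN
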